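import Pool.Agent.N207.AX.Stm

/-!
# Independent functions on general lines are independent

For every injective `e` with the functions `f ∘ e` dependent, take a nonzero polynomial `p_e` which vanishes at them, and
a nonzero coefficient `c_e` of `p_e`.  On a line through a point where no `c_e` vanishes, every `f ∘ e` is dependent.
-/

set_option autoImplicit false
open Filter Topology

namespace Pool.Agent.N301.AX
open Pool.Agent.N207.AX

/-- a nonzero polynomial is nonzero somewhere on a nonempty open set -/
theorem ne_open {X : Type} [Fintype X] (U : Set (X → ℂ)) (hU : IsOpen U) (hne : U.Nonempty)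
    (c : MvPolynomial X ℂ) (hc : c ≠ 0) : ∃ z ∈ U, MvPolynomial.eval z c ≠ 0 := by
  by_contra hcon
  push Not at hcon
  obtain ⟨z, hz⟩ := hne
  obtain ⟨ε, hε, hb⟩ := Metric.isOpen_iff.1 hU z hz
  apply hc
  refine MvPolynomial.funext_set (fun i => Metric.ball (z i) ε) (fun i => ?_) fun x hx => ?_
  · exact infinite_of_mem_nhds (z i) (Metric.ball_mem_nhds _ hε)
  · rw [map_zero]
    apply hcon
    apply hb
    rw [ball_pi _ hε]
    exact hx

/-- polynomials are analytic functions -/
theorem an_eval {X : Type} [Fintype X] (U : Set (X → ℂ)) (c : MvPolynomial X ℂ) :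
    AnalyticOnNhd ℂ (fun z => MvPolynomial.eval z c) U := by
  intro z _
  induction c using MvPolynomial.induction_on with
  | C a => simpa using analyticAt_const
  | add p q hp hq =>
    have h1 : (fun z => MvPolynomial.eval z (p + q)) =
        (fun z : X → ℂ => MvPolynomial.eval z p) + fun z => MvPolynomial.eval z q := by
      funext w; simp
    rw [h1]
    exact hp.add hq
  | mul_X p i hp =>
    have h1 : (fun z => MvPolynomial.eval z (p * MvPolynomial.X i)) =
        (fun z : X → ℂ => MvPolynomial.eval z p) * fun z => z i := by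
      funext w; simp
    rw [h1]
    exact hp.mul ((ContinuousLinearMap.proj (R := ℂ) (φ := fun _ : X => ℂ) i).analyticAt z)

/-- **IND.** -/
theorem ind (hL : StmLine) : StmInd := by
  classical
  intro X N ι κ _ _ _ _ r U hU hUc hUn f hf h k hh hk hh0 hk0 H
  by_contra hcon
  push Not at hcon
  have h1 : ∀ e : {e : Fin r → N // Function.Injective e}, ∃ p : MvPolynomial (Fin r) (MvPolynomial X ℂ),
      (∀ z ∈ U, p.eval₂ (MvPolynomial.eval z) (fun i => f (e.1 i) z) = 0) ∧ ∃ m, p.coeff m ≠ 0 := by
    intro e
    have h2 := hcon e.1 e.2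
    unfold Ind at h2
    push Not at h2
    obtain ⟨p, hp, hp0⟩ := h2
    refine ⟨p, hp, ?_⟩
    by_contra h3
    push Not at h3
    apply hp0
    ext1 m
    rw [h3 m, MvPolynomial.coeff_zero]
  choose p hp m hm using h1
  have hfin : Finite {e : Fin r → N // Function.Injective e} := inferInstance
  obtain ⟨x, hx, v, hv1, hv2⟩ := hL X (ι ⊕ {e : Fin r → N // Function.Injective e}) κ U hU hUc hUn
    (Sum.elim h fun e z => MvPolynomial.eval z ((p e).coeff (m e))) k
    (by
      rintro (i | e)
      · exact hh i
      · exact an_eval U _) hk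
    (by
      rintro (i | e)
      · exact hh0 i
      · exact ne_open U hU hUn _ (hm e)) hk0
  have hcont : Continuous fun τ : ℂ => x + τ • v := by fun_prop
  have hmem : (fun τ : ℂ => x + τ • v) ⁻¹' U ∈ 𝓝 (0 : ℂ) := by
    apply hcont.continuousAt.preimage_mem_nhds
    simpa using hU.mem_nhds hx
  obtain ⟨ε, hε, hb⟩ := Metric.mem_nhds_iff.1 hmem
  obtain ⟨e, he, hloc⟩ := H x hx v (Metric.ball 0 ε) Metric.isOpen_ball
    (convex_ball (0 : ℂ) ε).isPreconnected (Metric.mem_ball_self hε) (fun τ hτ => hb hτ)
    (fun i => hv1 (Sum.inl i)) hv2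
  have hce : MvPolynomial.eval x ((p ⟨e, he⟩).coeff (m ⟨e, he⟩)) ≠ 0 := hv1 (Sum.inr ⟨e, he⟩)
  have hP := hloc (MvPolynomial.eval₂ (MvPolynomial.eval₂Hom MvPolynomial.C
      (fun i => MvPolynomial.C (x i) + MvPolynomial.C (v i) * MvPolynomial.X none))
      (fun j => MvPolynomial.X (some j)) (p ⟨e, he⟩)) (by
    filter_upwards [hmem] with τ hτ
    rw [← hp ⟨e, he⟩ _ hτ, MvPolynomial.hom_eval₂]
    congr 1
    · ext i
      · simp
      · simp [mul_comm]
    · funext i
      simp)
  apply hce
  set A : MvPolynomial (Option (Fin r)) ℂ →+* MvPolynomial (Fin r) ℂ := MvPolynomial.eval₂Hom MvPolynomial.C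
    (fun o : Option (Fin r) => o.elim (0 : MvPolynomial (Fin r) ℂ) fun j => MvPolynomial.X j) with hA
  have h3 := congrArg A hP
  rw [map_zero] at h3
  have key : MvPolynomial.map (MvPolynomial.eval x) = A.comp (MvPolynomial.eval₂Hom (MvPolynomial.eval₂Hom
      MvPolynomial.C (fun i => MvPolynomial.C (x i) + MvPolynomial.C (v i) * MvPolynomial.X none))
      (fun j => MvPolynomial.X (some j))) := by
    apply MvPolynomial.ringHom_ext
    · intro c
      induction c using MvPolynomial.induction_on with
      | C a => simp [hA]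
      | add p q hp hq => simp only [map_add, hp, hq]
      | mul_X p i hp =>
        simp only [map_mul, hp]
        congr 1
        simp [hA]
    · intro i
      simp [hA]
  have h4 : MvPolynomial.map (MvPolynomial.eval x) (p ⟨e, he⟩) = 0 := by
    rw [key]
    exact h3
  have h5 := congrArg (MvPolynomial.coeff (m ⟨e, he⟩)) h4
  rwa [MvPolynomial.coeff_map, MvPolynomial.coeff_zero] at h5

end Pool.Agent.N301.AX
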