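import Pool.Agent.N207.AX.Stm2
import Pool.Agent.N301.AX.IND

/-!
# Independent functions on general lines are independent: conditions on the point and the direction

As `Pool/Agent/N301/AX/IND.lean`; the line is found by Baire's theorem.
-/

set_option autoImplicit false
open Filter Topology

namespace Pool.Agent.N301.AX
open Pool.Agent.N207.AX

/-- countably many analytic functions which are not zero are different from zero at a common point -/
theorem common {E : Type} [NormedAddCommGroup E] [NormedSpace ℂ E] [CompleteSpace E] {J : Type}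
    [Countable J] (V : Set E) (hV : IsOpen V) (hVc : IsPreconnected V) (hVn : V.Nonempty)
    (g : J → E → ℂ) (hg : ∀ j, AnalyticOnNhd ℂ (g j) V) (h0 : ∀ j, ∃ p ∈ V, g j p ≠ 0) :
    ∃ p ∈ V, ∀ j, g j p ≠ 0 := by
  have hO : ∀ j, IsOpen ((V ∩ g j ⁻¹' {0}ᶜ) ∪ (closure V)ᶜ) := fun j =>
    ((hg j).continuousOn.isOpen_inter_preimage hV isOpen_compl_singleton).union
      isClosed_closure.isOpen_compl
  have hD : ∀ j, Dense ((V ∩ g j ⁻¹' {0}ᶜ) ∪ (closure V)ᶜ) := by
    intro j
    rw [dense_iff_inter_open]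
    intro W hW hWn
    by_cases hWV : (W ∩ V).Nonempty
    · by_contra hcon
      obtain ⟨p, hpW, hpV⟩ := hWV
      have hev : g j =ᶠ[𝓝 p] 0 := by
        filter_upwards [(hW.inter hV).mem_nhds ⟨hpW, hpV⟩] with q hq
        by_contra hq0
        exact hcon ⟨q, hq.1, Or.inl ⟨hq.2, hq0⟩⟩
      obtain ⟨q, hqV, hq0⟩ := h0 j
      exact hq0 ((hg j).eqOn_zero_of_preconnected_of_eventuallyEq_zero hVc hpV hev hqV)
    · obtain ⟨p, hp⟩ := hWn
      refine ⟨p, hp, Or.inr fun hpc => hWV ?_⟩
      exact mem_closure_iff.1 hpc W hW hp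
  obtain ⟨p, hpV, hp⟩ := (dense_iInter_of_isOpen hO hD).inter_open_nonempty V hV hVn
  refine ⟨p, hpV, fun j => ?_⟩
  rcases Set.mem_iInter.1 hp j with h1 | h1
  · exact h1.2
  · exact absurd (subset_closure hpV) h1

/-- **INDV.** -/
theorem indv : StmIndV := by
  classical
  intro X N ι _ _ _ r U hU hUc hUn f hf h hh hh0 H
  by_contra hcon
  push Not at hcon
  have h1 : ∀ e : {e : Fin r → N // Function.Injective e}, ∃ p : MvPolynomial (Fin r) (MvPolynomial X ℂ),
      (∀ z ∈ U, p.eval₂ (MvPolynomial.eval z) (fun i => f (e.1 i) z) = 0) ∧ ∃ m, p.coeff m ≠ 0 := by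
    intro e
    have h2 := hcon e.1 e.2
    unfold Ind at h2
    push Not at h2
    obtain ⟨p, hp, hp0⟩ := h2
    refine ⟨p, hp, ?_⟩
    by_contra h3
    push Not at h3
    apply hp0
    ext1 m
    rw [h3 m, MvPolynomial.coeff_zero]
  choose p hp m hm using h1
  have hfin : Finite {e : Fin r → N // Function.Injective e} := inferInstance
  obtain ⟨⟨x, v⟩, hxv, hv1⟩ := common (J := ι ⊕ {e : Fin r → N // Function.Injective e}) (U ×ˢ Set.univ)
    (hU.prod isOpen_univ) (hUc.prod isPreconnected_univ) (hUn.prod Set.univ_nonempty)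
    (Sum.elim h fun e z => MvPolynomial.eval z.1 ((p e).coeff (m e)))
    (by
      rintro (i | e)
      · exact hh i
      · intro z hz
        exact (an_eval U ((p e).coeff (m e)) z.1 hz.1).comp_of_eq analyticAt_fst rfl)
    (by
      rintro (i | e)
      · obtain ⟨z, hz, v, hv⟩ := hh0 i
        exact ⟨(z, v), ⟨hz, Set.mem_univ v⟩, hv⟩
      · obtain ⟨z, hz, hz0⟩ := ne_open U hU hUn _ (hm e)
        exact ⟨(z, 0), ⟨hz, Set.mem_univ _⟩, hz0⟩)
  have hx : x ∈ U := hxv.1
  have hcont : Continuous fun τ : ℂ => x + τ • v := by fun_prop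
  have hmem : (fun τ : ℂ => x + τ • v) ⁻¹' U ∈ 𝓝 (0 : ℂ) := by
    apply hcont.continuousAt.preimage_mem_nhds
    simpa using hU.mem_nhds hx
  obtain ⟨ε, hε, hb⟩ := Metric.mem_nhds_iff.1 hmem
  obtain ⟨e, he, hloc⟩ := H x hx v (Metric.ball 0 ε) Metric.isOpen_ball
    (convex_ball (0 : ℂ) ε).isPreconnected (Metric.mem_ball_self hε) (fun τ hτ => hb hτ)
    (fun i => hv1 (Sum.inl i))
  have hce : MvPolynomial.eval x ((p ⟨e, he⟩).coeff (m ⟨e, he⟩)) ≠ 0 := hv1 (Sum.inr ⟨e, he⟩)
  have hP := hloc (MvPolynomial.eval₂ (MvPolynomial.eval₂Hom MvPolynomial.C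
      (fun i => MvPolynomial.C (x i) + MvPolynomial.C (v i) * MvPolynomial.X none))
      (fun j => MvPolynomial.X (some j)) (p ⟨e, he⟩)) (by
    filter_upwards [hmem] with τ hτ
    rw [← hp ⟨e, he⟩ _ hτ, MvPolynomial.hom_eval₂]
    congr 1
    · ext i
      · simp
      · simp [mul_comm]
    · funext i
      simp)
  apply hce
  set A : MvPolynomial (Option (Fin r)) ℂ →+* MvPolynomial (Fin r) ℂ := MvPolynomial.eval₂Hom MvPolynomial.C
    (fun o : Option (Fin r) => o.elim (0 : MvPolynomial (Fin r) ℂ) fun j => MvPolynomial.X j) with hA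
  have h3 := congrArg A hP
  rw [map_zero] at h3
  have key : MvPolynomial.map (MvPolynomial.eval x) = A.comp (MvPolynomial.eval₂Hom (MvPolynomial.eval₂Hom
      MvPolynomial.C (fun i => MvPolynomial.C (x i) + MvPolynomial.C (v i) * MvPolynomial.X none))
      (fun j => MvPolynomial.X (some j))) := by
    apply MvPolynomial.ringHom_ext
    · intro c
      induction c using MvPolynomial.induction_on with
      | C a => simp [hA]
      | add p q hp hq => simp only [map_add, hp, hq]
      | mul_X p i hp =>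
        simp only [map_mul, hp]
        congr 1
        simp [hA]
    · intro i
      simp [hA]
  have h4 : MvPolynomial.map (MvPolynomial.eval x) (p ⟨e, he⟩) = 0 := by
    rw [key]
    exact h3
  have h5 := congrArg (MvPolynomial.coeff (m ⟨e, he⟩)) h4
  rwa [MvPolynomial.coeff_map, MvPolynomial.coeff_zero] at h5

end Pool.Agent.N301.AX
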